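import Mathlib
import Pool.Agent.Helper54.Taut.Example

/-!
# The point `pp` is not a focal point
-/

set_option autoImplicit false

open Set Filter MeasureTheory Module Topology
open scoped ContDiff RealInnerProductSpace Cardinal

namespace Pool.Agent.Helper53.Taut

open Pool.Agent.Helper54.Taut

/-- rotation by a right angle about the third axis (projected to the horizontal plane) -/
noncomputable def J (x : E3) : E3 := !₂[-x 1, x 0, 0]

lemma inner_eq (x y : E3) : ⟪x, y⟫ = x 0 * y 0 + x 1 * y 1 + x 2 * y 2 := by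
  rw [PiLp.inner_apply, Fin.sum_univ_three]
  simp [mul_comm]

lemma inner6 (x y : V6) : ⟪x, y⟫ = ⟪x.fst, y.fst⟫ + ⟪x.snd, y.snd⟫ := by
  rw [WithLp.prod_inner_apply]
  rfl

/-! ### Great circles -/

/-- Solutions of `f'' = -om² f` with zero data vanish. -/
lemma ode_zero {f f' : ℝ → E3} {om : ℝ} (h1 : ∀ t, HasDerivAt f (f' t) t)
    (h2 : ∀ t, HasDerivAt f' (-(om ^ 2) • f t) t) (h0 : f 0 = 0) (h0' : f' 0 = 0) (t : ℝ) :
    f t = 0 := by
  have hE : ∀ t, HasDerivAt (fun t => ⟪f' t, f' t⟫ + om ^ 2 * ⟪f t, f t⟫) 0 t := by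
    intro t
    have h3 : HasDerivAt (fun t => ⟪f' t, f' t⟫ + om ^ 2 * ⟪f t, f t⟫) _ t :=
      ((h2 t).inner ℝ (h2 t)).add (((h1 t).inner ℝ (h1 t)).const_mul (om ^ 2))
    refine h3.congr_deriv ?_
    rw [inner_smul_left, inner_smul_right, real_inner_comm (f' t) (f t)]
    simp
    ring
  have hconst : ∀ t, ⟪f' t, f' t⟫ + om ^ 2 * ⟪f t, f t⟫ = 0 := by
    intro t
    have := is_const_of_deriv_eq_zero (f := fun t => ⟪f' t, f' t⟫ + om ^ 2 * ⟪f t, f t⟫)
      (fun t => (hE t).differentiableAt) (fun t => (hE t).deriv) t 0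
    rw [this, h0, h0']
    simp
  have hf' : ∀ t, f' t = 0 := by
    intro t
    have h3 := hconst t
    have h4 : 0 ≤ ⟪f' t, f' t⟫ := real_inner_self_nonneg
    have h5 : 0 ≤ om ^ 2 * ⟪f t, f t⟫ := mul_nonneg (sq_nonneg _) real_inner_self_nonneg
    exact inner_self_eq_zero.1 (show ⟪f' t, f' t⟫ = 0 by linarith)
  have := is_const_of_deriv_eq_zero (f := f) (fun t => (h1 t).differentiableAt)
    (fun t => by rw [(h1 t).deriv, hf' t]) t 0
  rw [this, h0]

/-- The geodesics of the sphere are great circles. -/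
lemma great_circle {f f' f'' : ℝ → E3} (h1 : ∀ t, HasDerivAt f (f' t) t)
    (h2 : ∀ t, HasDerivAt f' (f'' t) t) (hn : ∀ t, ‖f t‖ = 1)
    (hg : ∀ t w, ⟪f t, w⟫ = 0 → ⟪f'' t, w⟫ = 0) :
    ⟪f 0, f' 0⟫ = 0 ∧ (‖f' 0‖ = 0 → ∀ t, f t = f 0) ∧
    (‖f' 0‖ ≠ 0 → ∀ t, f t = Real.cos (‖f' 0‖ * t) • f 0 +
      Real.sin (‖f' 0‖ * t) • (‖f' 0‖⁻¹ • f' 0)) := by
  have hff : ∀ t, ⟪f t, f t⟫ = 1 := fun t => by
    rw [real_inner_self_eq_norm_sq, hn t]; norm_num
  have hff' : ∀ t, ⟪f t, f' t⟫ = 0 := by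
    intro t
    have h3 := (h1 t).inner ℝ (h1 t)
    have h4 : (fun t => ⟪f t, f t⟫) = fun _ => (1 : ℝ) := funext hff
    rw [h4] at h3
    have h5 := h3.unique (hasDerivAt_const t (1 : ℝ))
    rw [real_inner_comm (f t) (f' t)] at h5
    linarith
  have hff'' : ∀ t, ⟪f t, f'' t⟫ = -⟪f' t, f' t⟫ := by
    intro t
    have h3 := (h1 t).inner ℝ (h2 t)
    have h4 : (fun t => ⟪f t, f' t⟫) = fun _ => (0 : ℝ) := funext hff'
    rw [h4] at h3
    have h5 := h3.unique (hasDerivAt_const t (0 : ℝ))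
    linarith
  have heq : ∀ t, f'' t = -⟪f' t, f' t⟫ • f t := by
    intro t
    have h3 := hg t (f'' t + ⟪f' t, f' t⟫ • f t) (by
      rw [inner_add_right, inner_smul_right, hff, hff'']; ring)
    have h4 : ⟪f'' t + ⟪f' t, f' t⟫ • f t, f'' t + ⟪f' t, f' t⟫ • f t⟫ = 0 := by
      rw [inner_add_left, h3, inner_smul_left, inner_add_right, inner_smul_right, hff, hff'']
      simp
    have h5 := inner_self_eq_zero.1 h4
    rw [neg_smul]
    exact eq_neg_of_add_eq_zero_left h5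
  have hspeed : ∀ t, ⟪f' t, f' t⟫ = ⟪f' 0, f' 0⟫ := by
    intro t
    refine is_const_of_deriv_eq_zero (f := fun t => ⟪f' t, f' t⟫)
      (fun t => ((h2 t).inner ℝ (h2 t)).differentiableAt) (fun t => ?_) t 0
    rw [((h2 t).inner ℝ (h2 t)).deriv, heq t, inner_smul_left, inner_smul_right,
      real_inner_comm (f t) (f' t), hff' t]
    simp
  set om := ‖f' 0‖ with hom
  have hom2 : ⟪f' 0, f' 0⟫ = om ^ 2 := real_inner_self_eq_norm_sq _
  have hode : ∀ t, HasDerivAt f' (-(om ^ 2) • f t) t := by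
    intro t
    have := h2 t
    rw [heq t, hspeed t, hom2] at this
    exact this
  refine ⟨hff' 0, ?_, ?_⟩
  · intro h0 t
    have hf'0 : ∀ t, f' t = 0 := by
      intro t
      refine inner_self_eq_zero.1 (?_ : ⟪f' t, f' t⟫ = 0)
      rw [hspeed t, hom2, h0]; norm_num
    exact is_const_of_deriv_eq_zero (f := f) (fun t => (h1 t).differentiableAt)
      (fun t => by rw [(h1 t).deriv, hf'0 t]) t 0
  · intro h0 t
    have hc : ∀ t, HasDerivAt (fun t => Real.cos (om * t)) (-(om * Real.sin (om * t))) t := by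
      intro t
      have h3 : HasDerivAt (fun t => Real.cos (om * t)) _ t :=
        (Real.hasDerivAt_cos (om * t)).comp t ((hasDerivAt_id t).const_mul om)
      exact h3.congr_deriv (by ring)
    have hs : ∀ t, HasDerivAt (fun t => Real.sin (om * t)) (om * Real.cos (om * t)) t := by
      intro t
      have h3 : HasDerivAt (fun t => Real.sin (om * t)) _ t :=
        (Real.hasDerivAt_sin (om * t)).comp t ((hasDerivAt_id t).const_mul om)
      exact h3.congr_deriv (by ring)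
    set n := om⁻¹ • f' 0 with hn'
    set u : ℝ → E3 := fun t => f t - (Real.cos (om * t) • f 0 + Real.sin (om * t) • n) with hu
    set u' : ℝ → E3 := fun t => f' t - (-(om * Real.sin (om * t)) • f 0 + (om * Real.cos (om * t)) • n)
      with hu'
    have hd1 : ∀ t, HasDerivAt u (u' t) t := fun t =>
      (h1 t).sub (((hc t).smul_const (f 0)).add ((hs t).smul_const n))
    have hd2 : ∀ t, HasDerivAt u' (-(om ^ 2) • u t) t := by
      intro t
      have h3 : HasDerivAt u' _ t := (hode t).sub ((((hs t).const_mul om).neg.smul_const (f 0)).add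
        (((hc t).const_mul om).smul_const n))
      refine h3.congr_deriv ?_
      simp only [hu]
      module
    have hu0 : u 0 = 0 := by simp [hu]
    have hu'0 : u' 0 = 0 := by
      simp only [hu', hn']
      rw [mul_zero, Real.sin_zero, Real.cos_zero, mul_zero, neg_zero, zero_smul, zero_add, mul_one,
        smul_smul, mul_inv_cancel₀ h0, one_smul, sub_self]
    have := ode_zero hd1 hd2 hu0 hu'0 t
    exact sub_eq_zero.1 this

/-! ### Tangent vectors -/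

/-- a unit speed type curve on the sphere with initial velocity `w` -/
lemma exists_sphere_curve (a w : E3) (ha : ‖a‖ = 1) (haw : ⟪a, w⟫ = 0) :
    ∃ c : ℝ → E3, ContDiff ℝ ∞ c ∧ c 0 = a ∧ (∀ s, ‖c s‖ = 1) ∧ HasDerivAt c w 0 := by
  by_cases hw : w = 0
  · exact ⟨fun _ => a, contDiff_const, rfl, fun _ => ha, by rw [hw]; exact hasDerivAt_const _ _⟩
  have hw' : ‖w‖ ≠ 0 := norm_ne_zero_iff.2 hw
  set om := ‖w‖ with hom
  refine ⟨fun s => Real.cos (om * s) • a + Real.sin (om * s) • (om⁻¹ • w), ?_, by simp, ?_, ?_⟩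
  · have h1 : ContDiff ℝ ∞ (fun s : ℝ => Real.cos (om * s)) :=
      Real.contDiff_cos.comp (contDiff_const.mul contDiff_id)
    have h2 : ContDiff ℝ ∞ (fun s : ℝ => Real.sin (om * s)) :=
      Real.contDiff_sin.comp (contDiff_const.mul contDiff_id)
    exact (h1.smul contDiff_const).add (h2.smul contDiff_const)
  · intro s
    have h1 : ⟪a, a⟫ = 1 := by rw [real_inner_self_eq_norm_sq, ha]; norm_num
    have h2 : ⟪w, w⟫ = om ^ 2 := real_inner_self_eq_norm_sq w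
    have h3 : ‖Real.cos (om * s) • a + Real.sin (om * s) • (om⁻¹ • w)‖ ^ 2 = 1 := by
      rw [← real_inner_self_eq_norm_sq]
      simp only [inner_add_left, inner_add_right, inner_smul_left, inner_smul_right, h1, h2, haw,
        real_inner_comm a w, conj_trivial]
      field_simp
      have := Real.sin_sq_add_cos_sq (om * s)
      linear_combination om * this
    have h4 := norm_nonneg (Real.cos (om * s) • a + Real.sin (om * s) • (om⁻¹ • w))
    nlinarith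
  · have hc : HasDerivAt (fun t => Real.cos (om * t)) 0 0 := by
      have h3 : HasDerivAt (fun t => Real.cos (om * t)) _ 0 :=
        (Real.hasDerivAt_cos (om * 0)).comp (0 : ℝ) ((hasDerivAt_id (0 : ℝ)).const_mul om)
      exact h3.congr_deriv (by simp)
    have hs : HasDerivAt (fun t => Real.sin (om * t)) om 0 := by
      have h3 : HasDerivAt (fun t => Real.sin (om * t)) _ 0 :=
        (Real.hasDerivAt_sin (om * 0)).comp (0 : ℝ) ((hasDerivAt_id (0 : ℝ)).const_mul om)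
      exact h3.congr_deriv (by simp)
    have h5 := (hc.smul_const a).add (hs.smul_const (om⁻¹ • w))
    refine h5.congr_deriv ?_
    rw [zero_smul, zero_add, smul_smul, mul_inv_cancel₀ hw', one_smul]

lemma tangent_fst {y : V6} (hy : y ∈ NN0) {w : E3} (hw : ⟪y.fst, w⟫ = 0) :
    IsTangent NN0 y (WithLp.toLp 2 (w, 0)) := by
  obtain ⟨c, hc, h0, hn, hd⟩ := exists_sphere_curve y.fst w hy.1 hw
  refine ⟨fun s => WithLp.toLp 2 (c s, y.snd), ?_, ?_, ?_, ?_⟩
  · exact (WithLp.prodContinuousLinearEquiv 2 ℝ E3 E3).symm.contDiff.comp (hc.prodMk contDiff_const)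
  · simp only [h0]; rfl
  · exact Eventually.of_forall fun s => ⟨hn s, hy.2⟩
  · have h1 := (WithLp.prodContinuousLinearEquiv 2 ℝ E3 E3).symm.toContinuousLinearMap.hasFDerivAt.comp_hasDerivAt
      (0 : ℝ) (hd.prodMk (hasDerivAt_const (0 : ℝ) y.snd))
    exact h1.deriv

lemma tangent_snd {y : V6} (hy : y ∈ NN0) {w : E3} (hw : ⟪y.snd, w⟫ = 0) :
    IsTangent NN0 y (WithLp.toLp 2 (0, w)) := by
  obtain ⟨c, hc, h0, hn, hd⟩ := exists_sphere_curve y.snd w hy.2 hw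
  refine ⟨fun s => WithLp.toLp 2 (y.fst, c s), ?_, ?_, ?_, ?_⟩
  · exact (WithLp.prodContinuousLinearEquiv 2 ℝ E3 E3).symm.contDiff.comp (contDiff_const.prodMk hc)
  · simp only [h0]; rfl
  · exact Eventually.of_forall fun s => ⟨hy.1, hn s⟩
  · have h1 := (WithLp.prodContinuousLinearEquiv 2 ℝ E3 E3).symm.toContinuousLinearMap.hasFDerivAt.comp_hasDerivAt
      (0 : ℝ) ((hasDerivAt_const (0 : ℝ) y.fst).prodMk hd)
    exact h1.deriv

lemma norm_eq_one_iff (x : E3) : ‖x‖ = 1 ↔ x 0 ^ 2 + x 1 ^ 2 + x 2 ^ 2 = 1 := by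
  rw [← sq_eq_sq₀ (norm_nonneg _) (by norm_num : (0 : ℝ) ≤ 1), ← real_inner_self_eq_norm_sq,
    inner_eq]
  constructor <;> intro h <;> linarith

/-- `(Jx, Jx)` is tangent to the diagonal circle -/
lemma tangent_MM {y : V6} (hy : y ∈ MM) : IsTangent MM y (WithLp.toLp 2 (J y.fst, J y.fst)) := by
  set x := y.fst with hx
  have hx2 : x 2 = 0 := hy.1.2
  have hxn := (norm_eq_one_iff x).1 hy.1.1
  set r : ℝ → E3 := fun s => Real.cos s • x + Real.sin s • J x with hr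
  have hr0 : r 0 = x := by simp [hr]
  have hrd : HasDerivAt r (J x) 0 := by
    have h1 := ((Real.hasDerivAt_cos 0).smul_const x).add ((Real.hasDerivAt_sin 0).smul_const (J x))
    refine h1.congr_deriv ?_
    simp
  have hrc : ContDiff ℝ ∞ r :=
    (Real.contDiff_cos.smul contDiff_const).add (Real.contDiff_sin.smul contDiff_const)
  have hrN : ∀ s, ‖r s‖ = 1 ∧ r s 2 = 0 := by
    intro s
    rw [norm_eq_one_iff]
    have h1 := Real.sin_sq_add_cos_sq s
    simp only [hr, J]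
    simp [hx2]
    rw [hx2] at hxn
    linear_combination (Real.sin s ^ 2 + Real.cos s ^ 2) * hxn + h1
  refine ⟨fun s => WithLp.toLp 2 (r s, r s), ?_, ?_, ?_, ?_⟩
  · exact (WithLp.prodContinuousLinearEquiv 2 ℝ E3 E3).symm.contDiff.comp (hrc.prodMk hrc)
  · simp only [hr0]
    have h2 : y.fst = y.snd := hy.2
    have h3 : y = WithLp.toLp 2 (y.fst, y.snd) := rfl
    rw [h3, ← h2]
  · exact Eventually.of_forall fun s => ⟨hrN s, rfl⟩
  · have h1 := (WithLp.prodContinuousLinearEquiv 2 ℝ E3 E3).symm.toContinuousLinearMap.hasFDerivAt.comp_hasDerivAt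
      (0 : ℝ) (hrd.prodMk hrd)
    exact h1.deriv

/-! ### Algebra at `s = 0` -/

lemma factor {x n xd nd : E3} {om omd : ℝ} (hxx : ⟪x, x⟫ = 1) (hnn : ⟪n, n⟫ = 1) (hxn : ⟪x, n⟫ = 0)
    (h1 : ⟪x, xd⟫ = 0) (h2 : ⟪n, nd⟫ = 0) (h3 : ⟪xd, n⟫ + ⟪x, nd⟫ = 0)
    (h4 : Real.cos om • xd + Real.sin om • nd +
      omd • (-(Real.sin om) • x + Real.cos om • n) = 0) :
    omd = -⟪n, xd⟫ ∧ ∀ τ : E3, ⟪x, τ⟫ = 0 →
      Real.sin om * ⟪nd, τ⟫ = -Real.cos om * ⟪xd, τ⟫ + Real.cos om * ⟪n, xd⟫ * ⟪n, τ⟫ := by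
  have e1 := congrArg (fun z => ⟪-(Real.sin om) • x + Real.cos om • n, z⟫) h4
  simp only [inner_add_left, inner_add_right, inner_smul_left, inner_smul_right, conj_trivial,
    inner_zero_right, hxx, hnn, hxn, h1, h2, real_inner_comm x n] at e1
  have h3' : ⟪x, nd⟫ = -⟪n, xd⟫ := by
    have : ⟪xd, n⟫ = ⟪n, xd⟫ := real_inner_comm _ _
    linarith
  rw [h3'] at e1
  have hsc := Real.sin_sq_add_cos_sq om
  have hod : omd = -⟪n, xd⟫ := by
    linear_combination e1 - (omd + ⟪n, xd⟫) * hsc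
  refine ⟨hod, fun τ hτ => ?_⟩
  have e2 := congrArg (fun z => ⟪z, τ⟫) h4
  simp only [inner_add_left, inner_smul_left, conj_trivial, inner_zero_left, hτ] at e2
  rw [hod] at e2
  linarith

lemma J_orth (x : E3) : ⟪x, J x⟫ = 0 := by
  rw [inner_eq]; simp [J]; ring

lemma inner_p1_J (x : E3) : ⟪p1, J x⟫ = -(3 / 5) * x 1 := by
  rw [inner_eq]; simp [J, p1]

lemma inner_p2_J (x : E3) : ⟪p2, J x⟫ = 3 / 5 * x 1 := by
  rw [inner_eq]; simp [J, p2]; ring

lemma inner_p1 {x : E3} (hx2 : x 2 = 0) : ⟪x, p1⟫ = 3 / 5 * x 0 := by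
  rw [inner_eq, hx2]; simp [p1]; ring

lemma inner_p2 {x : E3} (hx2 : x 2 = 0) : ⟪x, p2⟫ = -(3 / 5) * x 0 := by
  rw [inner_eq, hx2]; simp [p2]; ring

lemma inner_J_smul_J {x n : E3} (hx2 : x 2 = 0) (hn : ⟪x, n⟫ = 0) (lam : ℝ) :
    ⟪n, J (lam • J x)⟫ = 0 := by
  rw [inner_eq] at hn ⊢
  simp [J]
  rw [hx2] at hn
  linear_combination (-lam) * hn

lemma core {x0 x1 lam P1 P2 D1 D2 o1 o2 : ℝ} (hxx' : x0 ^ 2 + x1 ^ 2 = 1) (ho1 : 0 < o1)
    (ho2 : 0 < o2) (hc1 : Real.cos o1 = 3 / 5 * x0) (hc2 : Real.cos o2 = -(3 / 5) * x0)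
    (hs1 : Real.sin o1 * P1 = -(3 / 5) * x1) (hs2 : Real.sin o2 * P2 = 3 / 5 * x1)
    (horth' : o1 * P1 + o2 * P2 = 0)
    (g1 : Real.sin o1 * D1 = -Real.cos o1 * lam + Real.cos o1 * (lam * P1) * P1)
    (g2 : Real.sin o2 * D2 = -Real.cos o2 * lam + Real.cos o2 * (lam * P2) * P2)
    (horthd : -(lam * P1) * P1 + o1 * D1 + (-(lam * P2) * P2 + o2 * D2) = 0) : lam = 0 := by
  have hq1 := Real.sin_sq_add_cos_sq o1
  have hq2 := Real.sin_sq_add_cos_sq o2
  have hS1 : Real.sin o1 ≠ 0 := by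
    intro h
    rw [h, hc1] at hq1
    nlinarith [sq_nonneg x1]
  have hS2 : Real.sin o2 ≠ 0 := by
    intro h
    rw [h, hc2] at hq2
    nlinarith [sq_nonneg x1]
  -- `lam * (sum) = 0`
  have key : lam * (Real.sin o1 * Real.sin o2 * (P1 ^ 2 + P2 ^ 2) +
      o1 * Real.cos o1 * Real.sin o2 * (1 - P1 ^ 2) +
      o2 * Real.cos o2 * Real.sin o1 * (1 - P2 ^ 2)) = 0 := by
    linear_combination (-(Real.sin o1 * Real.sin o2)) * horthd + o1 * Real.sin o2 * g1 +
      o2 * Real.sin o1 * g2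
  have hSS : Real.sin o1 ^ 2 = Real.sin o2 ^ 2 := by
    rw [hc1] at hq1
    rw [hc2] at hq2
    linarith
  by_contra hl
  have key' := (mul_eq_zero.1 key).resolve_left hl
  -- equality of the ratios
  have hcase : o1 * Real.sin o2 = o2 * Real.sin o1 → Real.cos o1 = 0 := by
    intro h5
    have h6 : (Real.sin o1 - Real.sin o2) * (Real.sin o1 + Real.sin o2) = 0 := by
      linear_combination hSS
    rcases mul_eq_zero.1 h6 with h7 | h7
    · have h8 : Real.sin o1 = Real.sin o2 := by linarith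
      rw [h8] at h5
      have h9 : o1 = o2 := mul_right_cancel₀ hS2 h5
      rw [← h9] at hc2
      linarith
    · have h8 : Real.sin o1 = -Real.sin o2 := by linarith
      rw [h8] at h5
      have h9 : (o1 + o2) * Real.sin o2 = 0 := by linear_combination h5
      rcases mul_eq_zero.1 h9 with h10 | h10
      · linarith
      · exact absurd h10 hS2
  by_cases hx1' : x1 = 0
  · rw [hx1'] at hs1 hs2
    have hP1' : P1 = 0 := by
      have : Real.sin o1 * P1 = 0 := by rw [hs1]; ring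
      exact (mul_eq_zero.1 this).resolve_left hS1
    have hP2' : P2 = 0 := by
      have : Real.sin o2 * P2 = 0 := by rw [hs2]; ring
      exact (mul_eq_zero.1 this).resolve_left hS2
    rw [hP1', hP2'] at key'
    have hc0 : Real.cos o1 ≠ 0 := by
      rw [hc1]
      intro h
      have : x0 = 0 := by linarith
      rw [this, hx1'] at hxx'
      norm_num at hxx'
    have h5 : o1 * Real.sin o2 = o2 * Real.sin o1 := by
      have h6 : Real.cos o2 = -Real.cos o1 := by rw [hc1, hc2]; ring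
      rw [h6] at key'
      have h7 : Real.cos o1 * (o1 * Real.sin o2 - o2 * Real.sin o1) = 0 := by
        linear_combination key'
      have h8 := (mul_eq_zero.1 h7).resolve_left hc0
      linarith
    exact hc0 (hcase h5)
  · have h5 : o1 * Real.sin o2 = o2 * Real.sin o1 := by
      have h6 : x1 * (o1 * Real.sin o2 - o2 * Real.sin o1) = 0 := by
        linear_combination (-(5 / 3 * Real.sin o1 * Real.sin o2)) * horth' +
          (5 / 3 * o1 * Real.sin o2) * hs1 + (5 / 3 * o2 * Real.sin o1) * hs2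
      have h8 := (mul_eq_zero.1 h6).resolve_left hx1'
      linarith
    have h := hcase h5
    have hc2' : Real.cos o2 = 0 := by rw [hc2]; rw [hc1] at h; linarith
    rw [h, hc2'] at key'
    have h9 : Real.sin o1 * Real.sin o2 * (P1 ^ 2 + P2 ^ 2) = 0 := by linarith
    rcases mul_eq_zero.1 h9 with h10 | h10
    · rcases mul_eq_zero.1 h10 with h11 | h11
      · exact hS1 h11
      · exact hS2 h11
    · have h11 : P1 = 0 := by nlinarith [sq_nonneg P1, sq_nonneg P2]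
      rw [h11, mul_zero] at hs1
      apply hx1'
      linarith

/-- all the relations at `s = 0` force the variation to vanish -/
lemma algebra {x n1 n2 xd n1d n2d : E3} {o1 o2 o1d o2d : ℝ}
    (hxx : ⟪x, x⟫ = 1) (hx2 : x 2 = 0) (hxd2 : xd 2 = 0) (hxxd : ⟪x, xd⟫ = 0)
    (h11 : ⟪n1, n1⟫ = 1) (hx1 : ⟪x, n1⟫ = 0) (h1d : ⟪n1, n1d⟫ = 0) (h1x : ⟪xd, n1⟫ + ⟪x, n1d⟫ = 0)
    (h22 : ⟪n2, n2⟫ = 1) (hy1 : ⟪x, n2⟫ = 0) (h2d : ⟪n2, n2d⟫ = 0) (h2x : ⟪xd, n2⟫ + ⟪x, n2d⟫ = 0)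
    (ho1 : 0 < o1) (ho2 : 0 < o2)
    (hJ1 : Real.cos o1 • xd + Real.sin o1 • n1d +
      o1d • (-(Real.sin o1) • x + Real.cos o1 • n1) = 0)
    (hJ2 : Real.cos o2 • xd + Real.sin o2 • n2d +
      o2d • (-(Real.sin o2) • x + Real.cos o2 • n2) = 0)
    (hp1 : Real.cos o1 • x + Real.sin o1 • n1 = p1)
    (hp2 : Real.cos o2 • x + Real.sin o2 • n2 = p2)
    (horth : ⟪o1 • n1 + o2 • n2, J x⟫ = 0)
    (horthd : ⟪(o1d • n1 + o1 • n1d) + (o2d • n2 + o2 • n2d), J x⟫ +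
      ⟪o1 • n1 + o2 • n2, J xd⟫ = 0) :
    xd = 0 ∧ (o1d = 0 ∧ n1d = 0) ∧ (o2d = 0 ∧ n2d = 0) := by
  have hxτ : ⟪x, J x⟫ = 0 := J_orth x
  have hxx' : x 0 ^ 2 + x 1 ^ 2 = 1 := by
    have := inner_eq x x
    rw [hxx, hx2] at this
    linarith
  -- `xd` is a multiple of `J x`
  obtain ⟨lam, hlam⟩ : ∃ lam, lam = ⟪xd, J x⟫ := ⟨_, rfl⟩
  have hlam' : lam = -(xd 0 * x 1) + xd 1 * x 0 := by
    rw [hlam, inner_eq]; simp [J]
  have hxxd' : x 0 * xd 0 + x 1 * xd 1 = 0 := by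
    have := inner_eq x xd
    rw [hxxd, hx2] at this
    linarith
  have hxd : xd = lam • J x := by
    ext i
    fin_cases i
    · simp [J]
      rw [hlam']
      linear_combination (-(xd 0)) * hxx' + x 0 * hxxd'
    · simp [J]
      rw [hlam']
      linear_combination (-(xd 1)) * hxx' + x 1 * hxxd'
    · simp [J, hxd2]
  obtain ⟨e1, f1⟩ := factor hxx h11 hx1 hxxd h1d h1x hJ1
  obtain ⟨e2, f2⟩ := factor hxx h22 hy1 hxxd h2d h2x hJ2
  have g1 := f1 _ hxτ
  have g2 := f2 _ hxτ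
  have hn1 : ⟪n1, xd⟫ = lam * ⟪n1, J x⟫ := by rw [hxd, inner_smul_right]
  have hn2 : ⟪n2, xd⟫ = lam * ⟪n2, J x⟫ := by rw [hxd, inner_smul_right]
  rw [← hlam, hn1] at g1
  rw [← hlam, hn2] at g2
  rw [hn1] at e1
  rw [hn2] at e2
  have hc1 : Real.cos o1 = 3 / 5 * x 0 := by
    rw [← inner_p1 hx2, ← hp1, inner_add_right, inner_smul_right, inner_smul_right, hxx, hx1]
    ring
  have hc2 : Real.cos o2 = -(3 / 5) * x 0 := by
    rw [← inner_p2 hx2, ← hp2, inner_add_right, inner_smul_right, inner_smul_right, hxx, hy1]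
    ring
  have hs1 : Real.sin o1 * ⟪n1, J x⟫ = -(3 / 5) * x 1 := by
    rw [← inner_p1_J x, ← hp1, inner_add_left, inner_smul_left, inner_smul_left, hxτ]
    simp
  have hs2 : Real.sin o2 * ⟪n2, J x⟫ = 3 / 5 * x 1 := by
    rw [← inner_p2_J x, ← hp2, inner_add_left, inner_smul_left, inner_smul_left, hxτ]
    simp
  have horth' : o1 * ⟪n1, J x⟫ + o2 * ⟪n2, J x⟫ = 0 := by
    rw [inner_add_left, inner_smul_left, inner_smul_left] at horth
    simpa using horth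
  have hJxd : ⟪o1 • n1 + o2 • n2, J xd⟫ = 0 := by
    rw [hxd, inner_add_left, inner_smul_left, inner_smul_left, inner_J_smul_J hx2 hx1,
      inner_J_smul_J hx2 hy1]
    simp
  rw [hJxd, add_zero] at horthd
  simp only [inner_add_left, inner_smul_left, conj_trivial] at horthd
  rw [e1, e2] at horthd
  have hl : lam = 0 := core hxx' ho1 ho2 hc1 hc2 hs1 hs2 horth' g1 g2 horthd
  have hxd0 : xd = 0 := by rw [hxd, hl, zero_smul]
  have hSne : ∀ o : ℝ, Real.cos o ^ 2 = (3 / 5 * x 0) ^ 2 → Real.sin o ≠ 0 := by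
    intro o ho h
    have hq := Real.sin_sq_add_cos_sq o
    rw [h, ho] at hq
    nlinarith [sq_nonneg (x 1)]
  have ho1d : o1d = 0 := by rw [e1, hl]; ring
  have ho2d : o2d = 0 := by rw [e2, hl]; ring
  refine ⟨hxd0, ⟨ho1d, ?_⟩, ho2d, ?_⟩
  · rw [hxd0, ho1d, smul_zero, zero_add, zero_smul, add_zero] at hJ1
    exact (smul_eq_zero.1 hJ1).resolve_left (hSne o1 (by rw [hc1]))
  · rw [hxd0, ho2d, smul_zero, zero_add, zero_smul, add_zero] at hJ2
    exact (smul_eq_zero.1 hJ2).resolve_left (hSne o2 (by rw [hc2]; ring))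

/-! ### Variations -/

/-- the derivative in the second variable -/
noncomputable def dt (a : ℝ × ℝ → E3) (z : ℝ × ℝ) : E3 := fderiv ℝ a z (0, 1)

lemma contDiff_dt {a : ℝ × ℝ → E3} (ha : ContDiff ℝ ∞ a) : ContDiff ℝ ∞ (dt a) :=
  (ha.fderiv_right (m := ∞) (by simp)).clm_apply contDiff_const

lemma hasDerivAt_dt {a : ℝ × ℝ → E3} (ha : ContDiff ℝ ∞ a) (s t : ℝ) :
    HasDerivAt (fun t => a (s, t)) (dt a (s, t)) t := by
  have h1 : HasFDerivAt a (fderiv ℝ a (s, t)) (s, t) :=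
    (ha.differentiable (by simp) (s, t)).hasFDerivAt
  have h2 : HasDerivAt (fun t : ℝ => (s, t)) (0, 1) t :=
    (hasDerivAt_const t s).prodMk (hasDerivAt_id t)
  exact h1.comp_hasDerivAt t h2

lemma differentiableAt_fst {a : ℝ × ℝ → E3} (ha : ContDiff ℝ ∞ a) (s t : ℝ) :
    DifferentiableAt ℝ (fun s => a (s, t)) s := by
  have h2 : ContDiff ℝ ∞ (fun s : ℝ => (s, t)) := contDiff_id.prodMk contDiff_const
  exact (ha.comp h2).differentiable (by simp) s

lemma inner_deriv_zero {f g : ℝ → E3} {f' g' : E3} {k : ℝ} (hf : HasDerivAt f f' 0)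
    (hg : HasDerivAt g g' 0) (h : ∀ᶠ s in 𝓝 (0 : ℝ), ⟪f s, g s⟫ = k) :
    ⟪f 0, g'⟫ + ⟪f', g 0⟫ = 0 := by
  have h1 := hf.inner ℝ hg
  have h2 : (fun s => ⟪f s, g s⟫) =ᶠ[𝓝 0] fun _ => k := h
  exact (h1.congr_of_eventuallyEq h2.symm).unique (hasDerivAt_const (0 : ℝ) k)

lemma factor_data (a : ℝ × ℝ → E3) (ha : ContDiff ℝ ∞ a)
    (hn : ∀ᶠ s in 𝓝 (0 : ℝ), ∀ t, ‖a (s, t)‖ = 1)
    (hg : ∀ᶠ s in 𝓝 (0 : ℝ), ∀ t w, ⟪a (s, t), w⟫ = 0 → ⟪dt (dt a) (s, t), w⟫ = 0)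
    (hne : a (0, 0) ≠ a (0, 1)) (hd : HasDerivAt (fun s => a (s, 1)) 0 0) :
    ∃ (om : ℝ → ℝ) (n : ℝ → E3) (xd nd : E3) (omd : ℝ),
      0 < om 0 ∧ HasDerivAt (fun s => a (s, 0)) xd 0 ∧ HasDerivAt om omd 0 ∧ HasDerivAt n nd 0 ∧
      (∀ᶠ s in 𝓝 (0 : ℝ), dt a (s, 0) = om s • n s) ∧
      ⟪a (0, 0), a (0, 0)⟫ = 1 ∧ ⟪a (0, 0), xd⟫ = 0 ∧ ⟪n 0, n 0⟫ = 1 ∧ ⟪a (0, 0), n 0⟫ = 0 ∧
      ⟪n 0, nd⟫ = 0 ∧ ⟪xd, n 0⟫ + ⟪a (0, 0), nd⟫ = 0 ∧
      Real.cos (om 0) • xd + Real.sin (om 0) • nd +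
        omd • (-(Real.sin (om 0)) • a (0, 0) + Real.cos (om 0) • n 0) = 0 ∧
      Real.cos (om 0) • a (0, 0) + Real.sin (om 0) • n 0 = a (0, 1) ∧
      (xd = 0 → omd = 0 → nd = 0 → ∀ t, HasDerivAt (fun s => a (s, t)) 0 0) := by
  have hgc : ∀ᶠ s in 𝓝 (0 : ℝ), ⟪a (s, 0), dt a (s, 0)⟫ = 0 ∧
      (‖dt a (s, 0)‖ = 0 → ∀ t, a (s, t) = a (s, 0)) ∧
      (‖dt a (s, 0)‖ ≠ 0 → ∀ t, a (s, t) = Real.cos (‖dt a (s, 0)‖ * t) • a (s, 0) +
        Real.sin (‖dt a (s, 0)‖ * t) • (‖dt a (s, 0)‖⁻¹ • dt a (s, 0))) := by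
    filter_upwards [hn, hg] with s hs1 hs2
    exact great_circle (f := fun t => a (s, t)) (f' := fun t => dt a (s, t))
      (f'' := fun t => dt (dt a) (s, t)) (hasDerivAt_dt ha s) (hasDerivAt_dt (contDiff_dt ha) s)
      hs1 hs2
  have h0 := hgc.self_of_nhds
  have hom0 : ‖dt a (0, 0)‖ ≠ 0 := by
    intro h
    exact hne (h0.2.1 h 1).symm
  have hv0 : dt a (0, 0) ≠ 0 := fun h => hom0 (by rw [h, norm_zero])
  have hvd : DifferentiableAt ℝ (fun s => dt a (s, 0)) 0 := differentiableAt_fst (contDiff_dt ha) 0 0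
  have homd : DifferentiableAt ℝ (fun s => ‖dt a (s, 0)‖) 0 := hvd.norm ℝ hv0
  have hnd : DifferentiableAt ℝ (fun s => ‖dt a (s, 0)‖⁻¹ • dt a (s, 0)) 0 :=
    (homd.inv hom0).smul hvd
  have hom_ev : ∀ᶠ s in 𝓝 (0 : ℝ), ‖dt a (s, 0)‖ ≠ 0 :=
    homd.continuousAt.eventually_ne hom0
  set om : ℝ → ℝ := fun s => ‖dt a (s, 0)‖ with hom
  set n : ℝ → E3 := fun s => ‖dt a (s, 0)‖⁻¹ • dt a (s, 0) with hn'
  have hx : HasDerivAt (fun s => a (s, 0)) (deriv (fun s => a (s, 0)) 0) 0 :=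
    (differentiableAt_fst ha 0 0).hasDerivAt
  have ho : HasDerivAt om (deriv om 0) 0 := homd.hasDerivAt
  have hN : HasDerivAt n (deriv n 0) 0 := hnd.hasDerivAt
  have hxx : ∀ᶠ s in 𝓝 (0 : ℝ), ⟪a (s, 0), a (s, 0)⟫ = 1 := by
    filter_upwards [hn] with s hs
    rw [real_inner_self_eq_norm_sq, hs]; norm_num
  have hnn : ∀ᶠ s in 𝓝 (0 : ℝ), ⟪n s, n s⟫ = 1 := by
    filter_upwards [hom_ev] with s hs
    simp only [hn']
    rw [inner_smul_left, inner_smul_right, real_inner_self_eq_norm_sq]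
    simp only [conj_trivial]
    field_simp
  have hxn : ∀ᶠ s in 𝓝 (0 : ℝ), ⟪a (s, 0), n s⟫ = 0 := by
    filter_upwards [hgc] with s hs
    simp only [hn']
    rw [inner_smul_right, hs.1, mul_zero]
  have hform : ∀ᶠ s in 𝓝 (0 : ℝ), ∀ t, a (s, t) = Real.cos (om s * t) • a (s, 0) +
      Real.sin (om s * t) • n s := by
    filter_upwards [hgc, hom_ev] with s hs hs'
    exact hs.2.2 hs'
  -- the derivative in `s` of the great circle formula
  have hder : ∀ t, HasDerivAt (fun s => Real.cos (om s * t) • a (s, 0) +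
      Real.sin (om s * t) • n s)
      ((Real.cos (om 0 * t) • deriv (fun s => a (s, 0)) 0 +
        (-(Real.sin (om 0 * t)) * (deriv om 0 * t)) • a (0, 0)) +
      (Real.sin (om 0 * t) • deriv n 0 +
        (Real.cos (om 0 * t) * (deriv om 0 * t)) • n 0)) 0 := by
    intro t
    have hot : HasDerivAt (fun s => om s * t) (deriv om 0 * t) 0 := ho.mul_const t
    exact (hot.cos.smul hx).add (hot.sin.smul hN)
  refine ⟨om, n, _, _, _, ?_, hx, ho, hN, ?_, hxx.self_of_nhds, ?_, hnn.self_of_nhds,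
    hxn.self_of_nhds, ?_, ?_, ?_, ?_, ?_⟩
  · exact lt_of_le_of_ne (norm_nonneg _) (Ne.symm hom0)
  · filter_upwards [hom_ev] with s hs
    simp only [hom, hn']
    rw [smul_smul, mul_inv_cancel₀ hs, one_smul]
  · have h1 := inner_deriv_zero hx hx hxx
    have h2 : ⟪deriv (fun s => a (s, 0)) 0, a (0, 0)⟫ = ⟪a (0, 0), deriv (fun s => a (s, 0)) 0⟫ :=
      real_inner_comm _ _
    linarith
  · have h1 := inner_deriv_zero hN hN hnn
    have h2 : ⟪deriv n 0, n 0⟫ = ⟪n 0, deriv n 0⟫ := real_inner_comm _ _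
    linarith
  · have h1 := inner_deriv_zero hx hN hxn
    linarith
  · have h1 := hder 1
    have h2 : (fun s => a (s, 1)) =ᶠ[𝓝 0] fun s => Real.cos (om s * 1) • a (s, 0) +
        Real.sin (om s * 1) • n s := by
      filter_upwards [hform] with s hs
      exact hs 1
    have h3 := (h1.congr_of_eventuallyEq h2).unique hd
    simp only [mul_one] at h3
    rw [← h3]
    module
  · have h1 := hform.self_of_nhds 1
    rw [mul_one] at h1
    exact h1.symm
  · intro e1 e2 e3 t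
    have h1 := hder t
    have h2 : (fun s => a (s, t)) =ᶠ[𝓝 0] fun s => Real.cos (om s * t) • a (s, 0) +
        Real.sin (om s * t) • n s := by
      filter_upwards [hform] with s hs
      exact hs t
    have h3 := h1.congr_of_eventuallyEq h2
    refine h3.congr_deriv ?_
    rw [e1, e2, e3]
    simp

/-- the two projections -/
noncomputable def pr1 : V6 →L[ℝ] E3 :=
  (ContinuousLinearMap.fst ℝ E3 E3).comp
    (WithLp.prodContinuousLinearEquiv 2 ℝ E3 E3).toContinuousLinearMap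

noncomputable def pr2 : V6 →L[ℝ] E3 :=
  (ContinuousLinearMap.snd ℝ E3 E3).comp
    (WithLp.prodContinuousLinearEquiv 2 ℝ E3 E3).toContinuousLinearMap

lemma pr1_apply (y : V6) : pr1 y = y.fst := rfl
lemma pr2_apply (y : V6) : pr2 y = y.snd := rfl

lemma hasDerivAt_clm (p : V6 →L[ℝ] E3) {f : ℝ → V6} {f' : V6} {x : ℝ} (h : HasDerivAt f f' x) :
    HasDerivAt (fun s => p (f s)) (p f') x := p.hasFDerivAt.comp_hasDerivAt x h

/-- coordinates -/
noncomputable def co (i : Fin 3) : E3 →L[ℝ] ℝ := EuclideanSpace.proj i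

lemma hasDerivAt_co (i : Fin 3) {f : ℝ → E3} {f' : E3} {x : ℝ} (h : HasDerivAt f f' x) :
    HasDerivAt (fun s => f s i) (f' i) x := (co i).hasFDerivAt.comp_hasDerivAt x h

lemma contDiff_clm (p : V6 →L[ℝ] E3) {c : ℝ → ℝ → V6}
    (hc : ContDiff ℝ ∞ (fun z : ℝ × ℝ => c z.1 z.2)) :
    ContDiff ℝ ∞ (fun z : ℝ × ℝ => p (c z.1 z.2)) := p.contDiff.comp hc

lemma hasDerivAt_s {c : ℝ → ℝ → V6} (hc : ContDiff ℝ ∞ (fun z : ℝ × ℝ => c z.1 z.2)) (t : ℝ) :
    HasDerivAt (fun s => c s t) (deriv (fun s => c s t) 0) 0 := by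
  have h1 : ContDiff ℝ ∞ (fun s => c s t) :=
    hc.comp (contDiff_id.prodMk contDiff_const : ContDiff ℝ ∞ (fun s : ℝ => (s, t)))
  exact (h1.differentiable (by simp) 0).hasDerivAt

lemma deriv_pr {p : V6 →L[ℝ] E3} {c : ℝ → ℝ → V6}
    (hc : ContDiff ℝ ∞ (fun z : ℝ × ℝ => c z.1 z.2)) (s t : ℝ) :
    p (deriv (c s) t) = dt (fun z => p (c z.1 z.2)) (s, t) ∧
    p (deriv (deriv (c s)) t) = dt (dt (fun z => p (c z.1 z.2))) (s, t) := by
  have hcs : ContDiff ℝ ∞ (c s) := hc.comp (contDiff_const.prodMk contDiff_id)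
  have ha : ContDiff ℝ ∞ (fun z : ℝ × ℝ => p (c z.1 z.2)) := p.contDiff.comp hc
  have h1 : ∀ t, p (deriv (c s) t) = dt (fun z => p (c z.1 z.2)) (s, t) := by
    intro t
    have h2 := hasDerivAt_clm p (hcs.differentiable (by simp) t).hasDerivAt
    exact h2.unique (hasDerivAt_dt ha s t)
  refine ⟨h1 t, ?_⟩
  have hd : ContDiff ℝ ∞ (deriv (c s)) := by
    have := (contDiff_infty_iff_deriv.1 hcs).2
    exact this
  have h2 := hasDerivAt_clm p (hd.differentiable (by simp) t).hasDerivAt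
  have h3 := hasDerivAt_dt (contDiff_dt ha) s t
  have e : (fun t => p (deriv (c s) t)) = fun t => dt (fun z => p (c z.1 z.2)) (s, t) := by
    ext1 t; exact h1 t
  rw [e] at h2
  exact h2.unique h3

theorem pp_not_focal : ¬ IsFocalPoint NN0 MM pp := by
  rintro ⟨c, hc, hev, hc01, hd1, t0, -, hne⟩
  set a : ℝ × ℝ → E3 := fun z => pr1 (c z.1 z.2) with ha'
  set b : ℝ × ℝ → E3 := fun z => pr2 (c z.1 z.2) with hb'
  have ha : ContDiff ℝ ∞ a := contDiff_clm pr1 hc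
  have hb : ContDiff ℝ ∞ b := contDiff_clm pr2 hc
  have hc1d : HasDerivAt (fun s => c s 1) 0 0 := by
    have := hasDerivAt_s hc 1
    rw [hd1] at this
    exact this
  have hda : HasDerivAt (fun s => a (s, 1)) 0 0 := by
    have := hasDerivAt_clm pr1 hc1d
    rw [map_zero] at this
    exact this
  have hdb : HasDerivAt (fun s => b (s, 1)) 0 0 := by
    have := hasDerivAt_clm pr2 hc1d
    rw [map_zero] at this
    exact this
  have h00 := hev.self_of_nhds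
  have hM0 : c 0 0 ∈ MM := h00.2.1
  have ha01 : a (0, 1) = p1 := by
    simp only [ha', hc01, pr1_apply]; rfl
  have hb01 : b (0, 1) = p2 := by
    simp only [hb', hc01, pr2_apply]; rfl
  have hab0 : a (0, 0) = b (0, 0) := hM0.2
  have ha2 : a (0, 0) 2 = 0 := hM0.1.2
  have hna : a (0, 0) ≠ a (0, 1) := by
    intro h
    rw [h, ha01] at ha2
    simp [p1] at ha2
  have hnb : b (0, 0) ≠ b (0, 1) := by
    intro h
    rw [hab0, h, hb01] at ha2
    simp [p2] at ha2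
  have hga : ∀ᶠ s in 𝓝 (0 : ℝ), ∀ t w, ⟪a (s, t), w⟫ = 0 → ⟪dt (dt a) (s, t), w⟫ = 0 := by
    filter_upwards [hev] with s hs t w hw
    have h1 := hs.1.2.2 t _ (tangent_fst (hs.1.2.1 t) hw)
    rw [inner6] at h1
    rw [← (deriv_pr (p := pr1) hc s t).2, pr1_apply]
    simpa using h1
  have hgb : ∀ᶠ s in 𝓝 (0 : ℝ), ∀ t w, ⟪b (s, t), w⟫ = 0 → ⟪dt (dt b) (s, t), w⟫ = 0 := by
    filter_upwards [hev] with s hs t w hw
    have h1 := hs.1.2.2 t _ (tangent_snd (hs.1.2.1 t) hw)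
    rw [inner6] at h1
    rw [← (deriv_pr (p := pr2) hc s t).2, pr2_apply]
    simpa using h1
  obtain ⟨o1, n1, xd, n1d, o1d, ho1, hx, ho1d, hn1d, hv1, hxx, hxxd, h11, hx1, h1d, h1x, hJ1,
    hp1, hz1⟩ := factor_data a ha (hev.mono fun s hs t => (hs.1.2.1 t).1) hga hna hda
  obtain ⟨o2, n2, yd, n2d, o2d, ho2, hy, ho2d, hn2d, hv2, hyy, hyyd, h22, hy1, h2d, h2x, hJ2,
    hp2, hz2⟩ := factor_data b hb (hev.mono fun s hs t => (hs.1.2.1 t).2) hgb hnb hdb
  have hab : (fun s => a (s, 0)) =ᶠ[𝓝 0] fun s => b (s, 0) := by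
    filter_upwards [hev] with s hs
    exact hs.2.1.2
  have hyx : yd = xd := (hy.congr_of_eventuallyEq hab).unique hx
  subst hyx
  rw [← hab0] at hyy hyyd hy1 h2x hJ2 hp2
  have hxd2 : yd 2 = 0 := by
    have h1 := hasDerivAt_co 2 hx
    have h2 : (fun s => a (s, 0) 2) =ᶠ[𝓝 0] fun _ => (0 : ℝ) := by
      filter_upwards [hev] with s hs
      exact hs.2.1.1.2
    exact (h1.congr_of_eventuallyEq h2.symm).unique (hasDerivAt_const (0 : ℝ) (0 : ℝ))
  -- orthogonality to `MM`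
  have hJd : HasDerivAt (fun s => J (a (s, 0))) (J yd) 0 := by
    have e0 := hasDerivAt_co 0 hx
    have e1 := hasDerivAt_co 1 hx
    have h3 := (e0.smul_const (!₂[0, 1, 0] : E3)).add (e1.smul_const (!₂[-1, 0, 0] : E3))
    have e2 : ∀ x : E3, J x = x 0 • (!₂[0, 1, 0] : E3) + x 1 • (!₂[-1, 0, 0] : E3) := by
      intro x
      ext i
      fin_cases i <;> simp [J]
    have e3 : (fun s => J (a (s, 0))) = fun s => a (s, 0) 0 • (!₂[0, 1, 0] : E3) +
        a (s, 0) 1 • (!₂[-1, 0, 0] : E3) := by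
      ext1 s; exact e2 _
    rw [e3, e2 yd]
    exact h3
  have horth : ∀ᶠ s in 𝓝 (0 : ℝ), ⟪o1 s • n1 s + o2 s • n2 s, J (a (s, 0))⟫ = 0 := by
    filter_upwards [hev, hv1, hv2] with s hs h1 h2
    have h3 := hs.2.2 _ (tangent_MM hs.2.1)
    rw [inner6] at h3
    rw [← h1, ← h2, ← (deriv_pr (p := pr1) hc s 0).1, ← (deriv_pr (p := pr2) hc s 0).1,
      inner_add_left]
    exact h3
  have hsum : HasDerivAt (fun s => o1 s • n1 s + o2 s • n2 s)
      ((o1 0 • n1d + o1d • n1 0) + (o2 0 • n2d + o2d • n2 0)) 0 :=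
    (ho1d.smul hn1d).add (ho2d.smul hn2d)
  have horthd := inner_deriv_zero hsum hJd horth
  rw [ha01] at hp1
  rw [hb01] at hp2
  obtain ⟨r1, ⟨r2, r3⟩, r4, r5⟩ := algebra hxx ha2 hxd2 hxxd h11 hx1 h1d h1x h22 hy1 h2d h2x ho1 ho2
    hJ1 hJ2 hp1 hp2 horth.self_of_nhds (by
      rw [add_comm]
      rw [add_comm (o1d • n1 0), add_comm (o2d • n2 0)]
      exact horthd)
  have hda0 := hz1 r1 r2 r3 t0
  have hdb0 := hz2 r1 r4 r5 t0
  apply hne
  have hct := hasDerivAt_s hc t0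
  have q1 := (hasDerivAt_clm pr1 hct).unique hda0
  have q2 := (hasDerivAt_clm pr2 hct).unique hdb0
  have q3 : (WithLp.prodContinuousLinearEquiv 2 ℝ E3 E3) (deriv (fun s => c s t0) 0) = 0 :=
    Prod.ext q1 q2
  simpa using q3

end Pool.Agent.Helper53.Taut
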